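import Mathlib
import Pool.Agent.H54.G.W237.RK.Defs
import Pool.Agent.H54.G.W237.RK.Gal
import Pool.Agent.H54.G.W237.RK.LevFin

set_option autoImplicit false
set_option linter.unusedVariables false

/-!
# The Bogomolov property relative to the maximal cyclotomic extension, bounded degree
-/

namespace Pool.Agent.W402.RK

open Polynomial IntermediateField
open Pool.Agent.H58P (Qb ht)
open Pool.Agent.W237.RK

/-- the trivial group is contained in every field -/
lemma bot_mem (K : GF) : ∀ g ∈ (⊥ : Subgroup Qbˣ), (g : Qb) ∈ K := by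
  intro g hg
  rw [Subgroup.mem_bot] at hg
  rw [hg, Units.val_one]
  exact one_mem _

lemma fg_bot : (⊥ : Subgroup Qbˣ).FG := ⟨∅, by simp⟩

/-- an element of the field generated by roots of unity of coprime orders -/
lemma root_mul_mem {F : GF} {a b : ℕ} (hab : Nat.Coprime a b)
    (ha : ∀ x : Qb, x ^ a = 1 → x ∈ F) (hb : ∀ x : Qb, x ^ b = 1 → x ∈ F)
    (x : Qb) (hx : x ^ (a * b) = 1) : x ∈ F := by
  have hx0 : a * b ≠ 0 → x ≠ 0 := by
    intro h
    rintro rfl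
    rw [zero_pow h] at hx
    exact zero_ne_one hx
  by_cases h0 : a * b = 0
  · rcases Nat.mul_eq_zero.mp h0 with h | h
    · subst h
      exact ha x (pow_zero x)
    · subst h
      exact hb x (pow_zero x)
  have hx0' := hx0 h0
  have hbez := Nat.gcd_eq_gcd_ab a b
  rw [hab] at hbez
  have h1 : x = (x ^ a) ^ (Nat.gcdA a b) * (x ^ b) ^ (Nat.gcdB a b) := by
    have e : x ^ (1 : ℤ) = x ^ ((a : ℤ) * Nat.gcdA a b + (b : ℤ) * Nat.gcdB a b) := by
      rw [← hbez]; simp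
    rw [zpow_one, zpow_add₀ hx0', zpow_mul, zpow_mul, zpow_natCast, zpow_natCast] at e
    exact e
  rw [h1]
  apply mul_mem
  · apply zpow_mem
    apply hb
    rw [← pow_mul, hx]
  · apply zpow_mem
    apply ha
    rw [← pow_mul, mul_comm b a, hx]

/-- commutation on a cyclotomic level -/
lemma comm_lev (K : GF) (M : ℕ) (σ τ : Aut) (hσ : Fix K σ) (hτ : Fix K τ) (k : ℕ)
    (hζ : ∀ ζ : Qb, ζ ^ M = 1 → σ ζ = ζ ^ k) :
    ∀ x ∈ lev K ⊥ M 1, τ (σ x) = σ (τ x) := by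
  let U : GF :=
    { carrier := {x | τ (σ x) = σ (τ x)}
      mul_mem' := by
        intro x y hx hy
        show τ (σ (x * y)) = σ (τ (x * y))
        have hx' : τ (σ x) = σ (τ x) := hx
        have hy' : τ (σ y) = σ (τ y) := hy
        rw [map_mul, map_mul, map_mul, map_mul, hx', hy']
      add_mem' := by
        intro x y hx hy
        show τ (σ (x + y)) = σ (τ (x + y))
        have hx' : τ (σ x) = σ (τ x) := hx
        have hy' : τ (σ y) = σ (τ y) := hy
        rw [map_add, map_add, map_add, map_add, hx', hy']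
      algebraMap_mem' := fun r => by
        show τ (σ (algebraMap ℚ Qb r)) = σ (τ (algebraMap ℚ Qb r))
        rw [AlgEquiv.commutes, AlgEquiv.commutes, AlgEquiv.commutes]
      inv_mem' := by
        intro x hx
        show τ (σ x⁻¹) = σ (τ x⁻¹)
        have hx' : τ (σ x) = σ (τ x) := hx
        rw [map_inv₀, map_inv₀, map_inv₀, map_inv₀, hx'] }
  have hU : lev K ⊥ M 1 ≤ U := by
    apply lev_le
    · intro x hx
      show τ (σ x) = σ (τ x)
      rw [hσ x hx, hτ x hx, hσ x hx]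
    · intro x hx
      show τ (σ x) = σ (τ x)
      have h2 : (τ x) ^ M = 1 := by rw [← map_pow, hx, map_one]
      rw [hζ x hx, hζ _ h2, map_pow]
    · rintro y ⟨g, hg, hy⟩
      show τ (σ y) = σ (τ y)
      rw [Subgroup.mem_bot] at hg
      rw [hg, Units.val_one, pow_one] at hy
      rw [hy]
      simp
  exact fun x hx => hU hx

/-- iteration of the cyclotomic step -/
lemma iterate_CS (p : ℕ) (K Finf : GF) (D : ℕ) (B : ℕ) (c : ℝ) (M' : ℕ)
    (hkinf : kinf K ≤ Finf)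
    (hstep : ∀ (i : ℕ) (β : Qb), B ≤ i → β ≠ 0 → (orb Finf β).ncard ≤ D → TorRigid Finf β →
      Rigid Finf (lev K ⊥ (p ^ i * M') 1) β → (∀ σ : Aut, Fix K σ → ht (σ β / β) ≤ c) →
      ∃ γ : Qb, Tor γ ∧ Rigid Finf (lev K ⊥ (p ^ (i - 1) * M') 1) (β / γ)) :
    ∀ (j : ℕ) (β : Qb), β ≠ 0 → (orb Finf β).ncard ≤ D → TorRigid Finf β →
      Rigid Finf (lev K ⊥ (p ^ (B + j) * M') 1) β → (∀ σ : Aut, Fix K σ → ht (σ β / β) ≤ c) →
      ∃ γ : Qb, Tor γ ∧ Rigid Finf (lev K ⊥ (p ^ B * M') 1) (β / γ) := by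
  intro j
  induction j with
  | zero =>
    intro β hβ hD hT hR hh
    refine ⟨1, tor_one, ?_⟩
    rw [div_one]
    exact hR
  | succ j ih =>
    intro β hβ hD hT hR hh
    obtain ⟨γ₁, hγ₁, hR₁⟩ := hstep (B + (j + 1)) β (Nat.le_add_right _ _) hβ hD hT hR hh
    have hγ₁0 : γ₁ ≠ 0 := hγ₁.ne_zero
    have hγ₁m : γ₁ ∈ Finf := hkinf (tor_mem_kinf K hγ₁)
    have e : B + (j + 1) - 1 = B + j := by omega
    rw [e] at hR₁
    obtain ⟨γ₂, hγ₂, hR₂⟩ := ih (β / γ₁) (div_ne_zero hβ hγ₁0)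
      (by rw [orb_div_ncard hγ₁0 hγ₁m]; exact hD) (torRigid_div hT hγ₁0 hγ₁m) hR₁
      (by
        intro σ hσ
        rw [ht_div hγ₁0 ((hγ₁.map σ).div hγ₁)]
        exact hh σ hσ)
    refine ⟨γ₁ * γ₂, hγ₁.mul hγ₂, ?_⟩
    rw [← div_div]
    exact hR₂

theorem bog (hCS : S_CS) (hFROB : S_FROB) (hGLF : S_GLF) : S_BOG := by
  intro K hK D
  haveI : Fact (Nat.Prime 3) := ⟨Nat.prime_three⟩
  let φ : Qb →+* PadicAlgCl 3 :=
    (IsAlgClosed.lift (R := ℚ) (M := PadicAlgCl 3) (S := Qb) : Qb →ₐ[ℚ] PadicAlgCl 3).toRingHom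
  obtain ⟨B, c₁, hc₁, h1⟩ := hCS 3 φ K ⊥ hK fg_bot (bot_mem K) D
  set K' := lev K ⊥ (3 ^ B) 1 with hK'
  have hK'fd : FiniteDimensional ℚ K' :=
    finiteDimensional_lev K hK ⊥ fg_bot (3 ^ B) 1 (by positivity) one_pos
  obtain ⟨n₁, h2⟩ := hFROB 3 φ K' hK'fd
  obtain ⟨c₂, hc₂, h3⟩ := hGLF 3 φ (Module.finrank ℚ K') D n₁
  have hfac : (0 : ℝ) < D.factorial := by exact_mod_cast D.factorial_pos
  refine ⟨min c₁ c₂ / (2 * D.factorial), by positivity, ?_⟩
  intro y hy0 hyD hyT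
  by_contra hlt
  push Not at hlt
  apply hyT
  rw [lt_div_iff₀ (by positivity)] at hlt
  set y₁ := y ^ D.factorial with hy₁
  have hy₁0 : y₁ ≠ 0 := pow_ne_zero _ hy0
  have hhty₁ : 2 * ht y₁ < min c₁ c₂ := by
    rw [hy₁, Pool.Agent.H58B.ht_pow]
    linarith
  have hhty₁0 : 0 ≤ ht y₁ := Pool.Agent.H58R.ht_nonneg y₁
  set Finf := kinf K with hFinf
  have hD₁ : (orb Finf y₁).ncard ≤ D := (orb_pow_ncard y D.factorial).trans hyD
  have hT₁ : TorRigid Finf y₁ :=
    torRigid_factorial (fun x hx => tor_mem_kinf K hx) hy0 hyD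
  -- rigidity at a finite level
  have hlevInf : levInf K ⊥ 1 = Finf := by
    apply le_antisymm
    · apply levInf_le (le_kinf K) (fun x hx => tor_mem_kinf K hx)
      rintro z ⟨g, hg, hz⟩
      rw [Subgroup.mem_bot] at hg
      rw [hg, Units.val_one, pow_one] at hz
      rw [hz]
      exact one_mem _
    · exact kinf_le_levInf K ⊥ 1
  have hR₀ : Rigid Finf (levInf K ⊥ 1) y₁ := by
    rw [hlevInf]
    exact fun κ hκ => ⟨κ, hκ, rfl⟩
  obtain ⟨N, hN, hRN⟩ := exists_rigid_lev Finf K ⊥ 1 y₁ hR₀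
  obtain ⟨j, M', hM', hNj⟩ := Nat.exists_eq_pow_mul_and_not_dvd hN.ne' 3 (by norm_num)
  have hRj : Rigid Finf (lev K ⊥ (3 ^ (B + j) * M') 1) y₁ := by
    apply rigid_mono _ hRN
    apply lev_mono K ⊥ _ one_pos (dvd_refl 1)
    rw [hNj, pow_add, mul_assoc]
    exact Dvd.intro_left _ rfl
  have hM'0 : 0 < M' := by
    rcases Nat.eq_zero_or_pos M' with h | h
    · exact absurd (h ▸ dvd_zero 3) hM'
    · exact h
  -- the levels are inside `Finf`
  have hle : ∀ N : ℕ, 0 < N → lev K ⊥ N 1 ≤ Finf := by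
    intro N hN
    rw [← hlevInf]
    exact lev_le_levInf K ⊥ hN
  obtain ⟨γ, hγ, hRγ⟩ := iterate_CS 3 K Finf D B c₁ M' le_rfl
    (by
      intro i β hi hβ0 hβD hβT hβR hβh
      have := h1 Finf i 0 1 M' β (by omega) (by norm_num) hM' le_rfl
        (by
          rw [pow_zero, one_mul]
          exact hle _ (by positivity)) (normal_kinf K) hβ0 hβD hβT
        (by rw [pow_zero, one_mul]; exact hβR) hβh
      rw [pow_zero, one_mul] at this
      exact this)
    j y₁ hy₁0 hD₁ hT₁ hRj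
    (by
      intro σ hσ
      have a1 : ht (σ y₁ / y₁) ≤ ht (σ y₁) + ht y₁⁻¹ := by
        rw [div_eq_mul_inv]
        exact Pool.Agent.H58R.ht_mul_le _ _
      rw [Pool.Agent.H58R.ht_inv _ hy₁0, Pool.Agent.H58B.ht_conj] at a1
      have a2 := min_le_left c₁ c₂
      linarith)
  have hγ0 := hγ.ne_zero
  have hγm : γ ∈ Finf := tor_mem_kinf K hγ
  set β := y₁ / γ with hβ
  have hβ0 : β ≠ 0 := div_ne_zero hy₁0 hγ0
  obtain ⟨M'', σ, a, hM'', hdvd, hσ, ha0, ha1, hσζ, hσx⟩ := h2 M' hM'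
  have hM''0 : 0 < M'' := by
    rcases Nat.eq_zero_or_pos M'' with h | h
    · exact absurd (h ▸ dvd_zero 3) hM''
    · exact h
  set E := lev K' ⊥ M'' 1 with hE
  have hKK' : K ≤ K' := le_lev K ⊥ _ _
  have hEfin : E ≤ Finf := by
    apply lev_le
    · exact hle _ (by positivity)
    · intro x hx
      exact tor_mem_kinf K ⟨M'', hM''0, hx⟩
    · rintro z ⟨g, hg, hz⟩
      rw [Subgroup.mem_bot] at hg
      rw [hg, Units.val_one, pow_one] at hz
      rw [hz]
      exact one_mem _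
  have hlevE : lev K ⊥ (3 ^ B * M') 1 ≤ E := by
    apply lev_le
    · exact hKK'.trans (le_lev K' ⊥ _ _)
    · intro x hx
      apply root_mul_mem (a := 3 ^ B) (b := M') _ _ _ x hx
      · exact Nat.Coprime.pow_left B ((Nat.Prime.coprime_iff_not_dvd Nat.prime_three).mpr hM')
      · intro x hx
        exact le_lev K' ⊥ _ _ (root_mem_lev K ⊥ hx)
      · intro x hx
        apply root_mem_lev
        obtain ⟨k, rfl⟩ := hdvd
        rw [pow_mul, hx, one_pow]
    · rintro z ⟨g, hg, hz⟩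
      rw [Subgroup.mem_bot] at hg
      rw [hg, Units.val_one, pow_one] at hz
      rw [hz]
      exact one_mem _
  have hRE : Rigid Finf E β := rigid_mono hlevE hRγ
  have horb : orb E β = orb Finf β := orb_eq_of_rigid hEfin hRE
  have hβD : (orb E β).ncard ≤ D := by
    rw [horb, hβ, orb_div_ncard hγ0 hγm]
    exact hD₁
  have hβht : ht β ≤ c₂ := by
    have : β = γ⁻¹ * y₁ := by rw [hβ, div_eq_mul_inv, mul_comm]
    rw [this, ht_tor_mul hγ.inv]
    have a2 := min_le_right c₁ c₂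
    linarith
  have hEfd : FiniteDimensional ℚ E :=
    finiteDimensional_lev K' hK'fd ⊥ fg_bot M'' 1 hM''0 one_pos
  have hfinal : Tor β := h3 K' E σ a β hK'fd le_rfl hEfd (le_lev K' ⊥ _ _)
    (normal_lev K' ⊥ (bot_mem K') M'' 1) hσ
    (fun τ hτ => comm_lev K' M'' σ τ hσ hτ (3 ^ a) hσζ) ha0 ha1 hσx hβ0 hβD hβht
  have hy₁T : Tor y₁ := by
    have : y₁ = β * γ := by rw [hβ, div_mul_cancel₀ _ hγ0]
    rw [this]
    exact hfinal.mul hγ
  exact Tor.of_pow D.factorial_pos hy₁T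

end Pool.Agent.W402.RK
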