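import Pool.Agent.H54.G.W237.RK.Defs

set_option autoImplicit false

namespace Pool.Agent.W402.RK

open Pool.Agent.W237.RK
open Pool.Agent.H58P (Qb ht)

theorem rest : S_REST := by
  intro p _ φ s
  let _ : Algebra Qb (PadicAlgCl p) := φ.toAlgebra
  have hcl : IsAlgClosure ℚ Qb := ⟨inferInstance, AlgebraicClosure.isAlgebraic ℚ⟩
  have hn : Normal ℚ Qb := IsAlgClosure.normal ℚ Qb
  have hst : IsScalarTower ℚ Qb (PadicAlgCl p) := IsScalarTower.of_algebraMap_eq (fun x => by
    rw [eq_ratCast, eq_ratCast, map_ratCast])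
  let χ : PadicAlgCl p ≃ₐ[ℚ] PadicAlgCl p := AlgEquiv.ofRingEquiv (f := s.toRingEquiv) (fun r => by
    rw [eq_ratCast, map_ratCast])
  refine ⟨χ.restrictNormal Qb, fun x => ?_⟩
  exact AlgEquiv.restrictNormal_commutes χ Qb x

end Pool.Agent.W402.RK
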