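import Pool.Agent.H54.G.W402.RK.POW

set_option autoImplicit false

namespace Pool.Agent.W402.RK

open Pool.Agent.W237.RK Polynomial
open Pool.Agent.H58P (Qb ht)

section

variable {p : ℕ} [hp : Fact p.Prime]

lemma prod_max_pos (s : Multiset (PadicAlgCl p)) {r : ℝ} (hr : 0 < r) :
    0 < (s.map (fun b => max r ‖b‖)).prod := by
  induction s using Multiset.induction_on with
  | empty => simp
  | cons b s ih =>
    rw [Multiset.map_cons, Multiset.prod_cons]
    exact mul_pos (lt_max_of_lt_left hr) ih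

lemma coeff_le (s : Multiset (PadicAlgCl p)) {r : ℝ} (hr : 0 < r) (l : ℕ) :
    ‖((s.map (fun b => X - C b)).prod).coeff l‖ * r ^ l ≤ (s.map (fun b => max r ‖b‖)).prod := by
  induction s using Multiset.induction_on generalizing l with
  | empty =>
    rw [Multiset.map_zero, Multiset.prod_zero, Multiset.map_zero, Multiset.prod_zero, coeff_one]
    split_ifs with h
    · rw [h]; simp
    · simp
  | cons b s ih =>
    rw [Multiset.map_cons, Multiset.prod_cons, Multiset.map_cons, Multiset.prod_cons, sub_mul,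
      coeff_sub, coeff_C_mul]
    set P := (s.map (fun b => X - C b)).prod with hP
    set M := (s.map (fun b => max r ‖b‖)).prod with hM
    have hM0 : 0 < M := prod_max_pos s hr
    have hrl : 0 < r ^ l := pow_pos hr l
    have h1 := sub_le_max ((X * P).coeff l) (b * P.coeff l)
    have h2 : ‖b * P.coeff l‖ * r ^ l ≤ max r ‖b‖ * M := by
      rw [norm_mul, mul_assoc]
      exact mul_le_mul (le_max_right _ _) (ih l) (by positivity) (le_max_of_le_left hr.le)
    have h3 : ‖(X * P).coeff l‖ * r ^ l ≤ max r ‖b‖ * M := by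
      cases l with
      | zero =>
        rw [mul_coeff_zero, coeff_X_zero, zero_mul, norm_zero, zero_mul]
        exact mul_nonneg (le_max_of_le_left hr.le) hM0.le
      | succ l =>
        rw [coeff_X_mul, pow_succ, ← mul_assoc, mul_comm _ r]
        exact mul_le_mul (le_max_left _ _) (ih l) (by positivity) (le_max_of_le_left hr.le)
    rcases le_total ‖(X * P).coeff l‖ ‖b * P.coeff l‖ with h | h
    · rw [max_eq_right h] at h1
      exact (mul_le_mul_of_nonneg_right h1 hrl.le).trans h2
    · rw [max_eq_left h] at h1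
      exact (mul_le_mul_of_nonneg_right h1 hrl.le).trans h3

lemma prod_ge (s : Multiset (PadicAlgCl p)) {δ : ℝ} (hδ : 0 ≤ δ) (m n : PadicAlgCl p → ℝ)
    (hm : ∀ b ∈ s, 0 ≤ m b) (h : ∀ b ∈ s, δ * m b ≤ n b) :
    δ ^ (s.card) * (s.map m).prod ≤ (s.map n).prod := by
  induction s using Multiset.induction_on with
  | empty => simp
  | cons b s ih =>
    rw [Multiset.card_cons, Multiset.map_cons, Multiset.prod_cons, Multiset.map_cons,
      Multiset.prod_cons]
    have h1 := ih (fun b hb => hm b (Multiset.mem_cons_of_mem hb))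
      (fun b hb => h b (Multiset.mem_cons_of_mem hb))
    have h2 := h b (Multiset.mem_cons_self b s)
    have h3 := hm b (Multiset.mem_cons_self b s)
    have h4 : 0 ≤ (s.map m).prod := Multiset.prod_nonneg (fun x hx => by
      obtain ⟨b, hb, rfl⟩ := Multiset.mem_map.mp hx
      exact hm b (Multiset.mem_cons_of_mem hb))
    calc δ ^ (s.card + 1) * (m b * (s.map m).prod) = (δ * m b) * (δ ^ s.card * (s.map m).prod) := by
          ring
      _ ≤ n b * (s.map n).prod :=
          mul_le_mul h2 h1 (by positivity) ((mul_nonneg hδ h3).trans h2)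

end

theorem roots : S_ROOTS := by
  intro p hp d f g δ ε hf hg hfd hgd hδ hδ1 hε hεδ hcoeff a ha hfa
  have hε1 : ε < 1 := hεδ.trans_le (pow_le_one₀ hδ.le hδ1)
  have hnorm : ∀ l, ‖g.coeff l‖ = ‖f.coeff l‖ := by
    intro l
    by_contra hne
    have h1 := hcoeff l
    rw [sub_eq_max (Ne.symm hne)] at h1
    have h2 : ‖f.coeff l‖ ≤ ε * ‖f.coeff l‖ := (le_max_left _ _).trans h1
    have h3 : ‖f.coeff l‖ = 0 := by
      have := norm_nonneg (f.coeff l)
      nlinarith
    have h4 : ‖g.coeff l‖ ≤ ε * ‖f.coeff l‖ := (le_max_right _ _).trans h1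
    rw [h3, mul_zero] at h4
    exact hne (by rw [h3]; exact le_antisymm h4 (norm_nonneg _))
  have hr : 0 < ‖a‖ := norm_pos_iff.mpr ha
  set M := (g.roots.map (fun b => max ‖a‖ ‖b‖)).prod with hM
  have hM0 : 0 < M := prod_max_pos _ hr
  have hprod : g = (g.roots.map (fun b => X - C b)).prod :=
    (IsAlgClosed.splits g).eq_prod_roots_of_monic hg
  have hgl : ∀ l, ‖g.coeff l‖ * ‖a‖ ^ l ≤ M := by
    intro l
    have := coeff_le g.roots hr l
    rwa [← hprod] at this
  have hga : ‖g.eval a‖ ≤ ε * M := by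
    have e : g.eval a = (g - f).eval a := by rw [eval_sub, hfa, sub_zero]
    rw [e, eval_eq_sum_range]
    apply IsUltrametricDist.norm_sum_le_of_forall_le_of_nonneg (by positivity)
    intro l _
    rw [norm_mul, norm_pow, coeff_sub, norm_sub_rev]
    calc ‖f.coeff l - g.coeff l‖ * ‖a‖ ^ l ≤ (ε * ‖f.coeff l‖) * ‖a‖ ^ l := by
          apply mul_le_mul_of_nonneg_right (hcoeff l) (by positivity)
      _ = ε * (‖g.coeff l‖ * ‖a‖ ^ l) := by rw [hnorm l]; ring
      _ ≤ ε * M := mul_le_mul_of_nonneg_left (hgl l) hε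
  have hcard : g.roots.card = d := by
    rw [← hgd]
    exact (IsAlgClosed.splits g).natDegree_eq_card_roots.symm
  have heval : ‖g.eval a‖ = (g.roots.map (fun b => ‖a - b‖)).prod := by
    conv_lhs => rw [hprod]
    rw [eval_multiset_prod, Multiset.map_map]
    have h1 := map_multiset_prod (normHom : PadicAlgCl p →*₀ ℝ)
      (g.roots.map ((eval a) ∘ fun b => X - C b))
    rw [Multiset.map_map] at h1
    refine Eq.trans h1 ?_
    congr 1
    apply Multiset.map_congr rfl
    intro b _
    simp
  have hex : ∃ b ∈ g.roots, ‖a - b‖ < δ * max ‖a‖ ‖b‖ := by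
    by_contra hcon
    push Not at hcon
    have h1 := prod_ge g.roots hδ.le (fun b => max ‖a‖ ‖b‖) (fun b => ‖a - b‖)
      (fun b _ => le_max_of_le_left hr.le) hcon
    rw [hcard, ← heval] at h1
    have h2 : ε * M < δ ^ d * M := mul_lt_mul_of_pos_right hεδ hM0
    linarith
  obtain ⟨b, hb, hlt⟩ := hex
  refine ⟨b, (mem_roots hg.ne_zero).mp hb, ?_⟩
  have hmaxpos : 0 < max ‖a‖ ‖b‖ := lt_max_of_lt_left hr
  have heq : ‖a‖ = ‖b‖ := by
    by_contra hne
    rw [sub_eq_max hne] at hlt
    nlinarith
  rw [heq, max_self, ← heq] at hlt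
  have e : b / a - 1 = -((a - b) / a) := by
    field_simp
    ring
  rw [e, norm_neg, norm_div, div_lt_iff₀ hr]
  exact hlt

end Pool.Agent.W402.RK
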